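import Pool.Agent.T9h34.P.Smooth

/-!
# Planted cliques in graphs of unknown density, for all circuits

A circuit is a straight-line program whose gates compute real numbers.  Gates of the first kind
compute an arbitrary nondecreasing real function of at most `f` real numbers computed earlier
(inputs, constants, earlier gates).  Gates of the second kind (any number of them) compute an
arbitrary Boolean function of the answers to any number of threshold tests (value at least `c`);
NOT gates are the case of one test.  The output is the answer to a test.

Let `0 < ε ≤ 1`, `n` large, `k ≤ n ^ (1 - ε)`, `f ≤ n ^ (ε ^ 2 / 64)`, and let `C` be ANY circuit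
whose number of gates and tests is at most `s`, where `log s ≤ n ^ (ε ^ 2 / 64)` and
`log s * log Q ≤ ε ^ 2 / 64 * (log n) ^ 2`.  For `Q` constant this allows `s = n ^ (c * log n)`; for
`s` polynomial it allows `Q = n ^ c`.

(1) Planting a random clique in an arbitrary graph is dominated by adding a few random edges.  Let
`G` be any graph on `n` vertices, `S` a uniformly random set of `k` vertices, and `W` a random graph
of density `b / L ≥ 1 / Q`; let an adversary add arbitrary further edges to `G ⊔ W`, which gives the
graph `A`.  Then the probability that `C` accepts `G` with the clique `S` is at most the probability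
that `C` accepts `A`, or that the answers to its tests are not those on `G`, plus `n ^ (-ε / 2)`.

(2) Planted clique problem with unknown density.  Let `p 0 < p 1 < ... < p M` be densities,
`p i = a i / L`, with `1 - p i ≤ Q * (p (i + 1) - p i)`.  The input is a random graph `G(n, p i)`,
`i < M` random, and, depending on a coin, a random clique with `k` vertices is planted.  Let `p` be
the probability that `C` outputs the coin, and let `X` be the number of steps of the random chain
`G(n, p 0) ≤ G(n, p 1) ≤ ... ≤ G(n, p M)` at which the answers to the tests of the gates of the
second kind change.  Then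

  `2 * p - 1 ≤ (1 + E[X]) / M + n ^ (-ε / 2)`,   and   `E[X] ≤ d * (2 ^ t - 1)`

if there are `t` gates of the second kind, each with at most `d` tests.

Consequences (by arithmetic from the theorem, not formalised).
* Size `n ^ C`, `p i = 1 / 4 + i / (2 * M)`, `M ≤ n ^ c` where `c > 0` depends only on `ε` and `C`:
  `t` NOT gates give `2 * p - 1 ≤ 2 ^ t / M + n ^ (-ε / 2)`.  So the natural planted clique problem
  with unknown density needs `c log n` NOT gates.  For `k ≥ n ^ (1 / 2 + e)` this is optimal up to
  the constant, since the degrees reveal the clique, and `O(log n)` NOT gates suffice for every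
  function with circuits of polynomial size (Markov, Fischer).
* `M = 2`, densities 0.5 and 0.51: circuits without NOT gates (AND, OR, threshold and real monotone
  gates) with success probability more than `3 / 4` need size `n ^ (c log n)`, which is optimal up
  to `c`: exhaustive search for cliques with `C log n` vertices is monotone and has size
  `n ^ (O(log n))`, and it succeeds with high probability for all `k ≥ C log n`.
* `p i = 1 - n ^ (-i * x)`, `i ≤ M`, `M` constant: the size is `2 ^ (n ^ c)`.
* (1) with `G` empty and `A` a graph without `k`-clique that contains `W`: every circuit for the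
  `k`-clique problem.  With `A = G ⊔ W` random: semi-random models.

Method.  As long as the answers to the tests stay those on `G` the circuit is monotone; a monotone
circuit `D` detects that the output is 1 or that an answer has changed.  The functions computed by
the gates of `D` are approximated by chains of closed families of sets of at most `c` vertices: a
family is closed if it contains every small set `T` of vertices for which, with probability more
than `1 - η`, all edges of the clique of a member of the family are in the clique of `T` or in the
random graph.  By a second moment bound, applied to the classes of a random colouring of the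
vertices (which makes `η` exponentially small), a closed family has few minimal members of each
size above each set; so a random clique, being spread, rarely separates a gate from its
approximator.  The couplings are by random labels of the pairs of vertices.
-/

namespace Pool.Agent.T9h34.Old.PlantedCliqueUnknown

open Pool.Agent.T9h34 (graphInput)
open Pool.Agent.T9h35.RW (Circuit)
open Pool.Agent.VC34 (numTests answers)
open Pool.Agent.PC34 (labelGraph withClique prob success meanChanges)

theorem result : ∀ ε : ℝ, 0 < ε → ε ≤ 1 → ∃ n₀ : ℕ, ∀ (n k L f s : ℕ) (Q : ℝ),
    n₀ ≤ n → (k : ℝ) ≤ (n : ℝ) ^ (1 - ε) → n ≤ s → (f : ℝ) ≤ (n : ℝ) ^ (ε ^ 2 / 64) →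
    Real.log s ≤ (n : ℝ) ^ (ε ^ 2 / 64) →
    Real.log s * Real.log Q ≤ ε ^ 2 / 64 * Real.log n ^ 2 →
    ∀ (d : ℕ) (C : Circuit (Fin n × Fin n)), C.FanIn f d → C.size + numTests C ≤ s →
      (∀ (b : ℕ) (G : SimpleGraph (Fin n)) (A : (Sym2 (Fin n) → Fin L) → SimpleGraph (Fin n)),
        1 ≤ b → b ≤ L → L ≤ Q * b → (∀ lab, G ⊔ labelGraph lab b ≤ A lab) →
        prob (fun S : {S : Finset (Fin n) // S.card = k} =>
            C.eval (graphInput (withClique G S)) = true) ≤
          prob (fun lab => C.eval (graphInput (A lab)) = true ∨
            answers C (graphInput (A lab)) ≠ answers C (graphInput G)) + (n : ℝ) ^ (-(ε / 2))) ∧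
      ∀ (M : ℕ) (a : ℕ → ℕ), 1 ≤ M → a M ≤ L → (∀ i < M, a i < a (i + 1)) →
        (∀ i < M, (L : ℝ) - a i ≤ Q * ((a (i + 1) : ℝ) - a i)) →
        meanChanges C L M a + d ≤ d * 2 ^ C.numOther ∧
        2 * success C k L M a - 1 ≤ (1 + meanChanges C L M a) / M + (n : ℝ) ^ (-(ε / 2)) := by
  intro ε h0 h1
  obtain ⟨n₁, hn₁⟩ := Pool.Agent.T9h34.P.smoothed h0 h1
  obtain ⟨n₂, hn₂⟩ := Pool.Agent.T9h34.P.planted h0 h1
  refine ⟨max n₁ n₂, ?_⟩
  intro n k L f s Q hn hk hns hf hlog hlQ d C hC hCs
  constructor
  · intro b G A hb hbL hQ hA
    exact hn₁ n k L f s Q (le_trans (le_max_left _ _) hn) hk hns hf hlog hlQ d C hC hCs b G A hb hbL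
      hQ hA
  · intro M a hM haM ha hQ
    exact hn₂ n k L M f s a Q (le_trans (le_max_right _ _) hn) hk hM ha haM hQ hns hf hlog hlQ
      d C hC hCs

end Pool.Agent.T9h34.Old.PlantedCliqueUnknown
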